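import Pool.Agent.Work.MP_92a29d_cert.g4431E2_J0.O
import Pool.Agent.Work.MP_92a29d_cert.g4431E2_J0.J0
import Pool.Agent.Work.MP_92a29d_cert.g4431E2_J0.J1

/-! The instance has no model (generated). -/

set_option autoImplicit false
set_option maxRecDepth 100000

namespace Pool.Agent.Work.MP_92a29d_cert.g4431E2_J0

open Pool.Agent.Work.MP_92a29d_co_h93 Pool.Agent.Work.MP_92a29d_co_h45

theorem hK : K0 = 2 ^ 1674 := by decide +kernel

theorem hA : A0 = 2 ^ (1674 - 12) - 2 ^ 12 := by decide +kernel

theorem hL : L 11193 = 0 := by decide +kernel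

theorem unsat {M : Model} : ¬ IsModelX Pool.Agent.Work.MP_92a29d_co.Place.g4431E2_J0 M := by
  intro hM
  obtain ⟨τ, hz, hOM⟩ := Pool.Agent.Work.MP_92a29d_co_h45.OM_g4431E2_J0.om_sound hM
  have h0 := origs_sound hz hA hOM okO
  have h1 := job_sound hz (by decide) hK hA ok0 (by decide) h0 sz0
  have h2 := job_sound hz (by decide) hK hA ok1 (by decide) h1 sz1
  have h3 := job_sound hz (by decide) hK hA ok2 (by decide) h2 sz2
  have h4 := job_sound hz (by decide) hK hA ok3 (by decide) h3 sz3
  exact not_mt hL (h4 11193 (by decide))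

end Pool.Agent.Work.MP_92a29d_cert.g4431E2_J0
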